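import Pool.Agent.H37.S3.Stmts

/-!
# Filling a cube
-/

set_option autoImplicit false

namespace Pool.KS3

open Finset Real
open Pool.Agent.H49.Ent Pool.Agent.H32.Dense Pool.STK Pool.KAF Pool.KAL

namespace FIL

/-- The value of the restriction to the graph. -/
lemma eval_gr {n : ℕ} (G : MvPolynomial (Fin n) ℝ) (Q : MvPolynomial (Option (Fin n)) ℝ)
    (y : Fin n → ℝ) : MvPolynomial.eval y (gr G Q) = MvPolynomial.eval (gpt G y) Q := by
  unfold gr gpt MvPolynomial.eval
  rw [MvPolynomial.eval₂Hom_bind₁]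
  congr 2
  funext o
  cases o with
  | none => rfl
  | some i => simp

/-- The degree of the restriction to the graph. -/
lemma totalDegree_gr_le {n : ℕ} (G : MvPolynomial (Fin n) ℝ)
    (Q : MvPolynomial (Option (Fin n)) ℝ) (k₀ D : ℕ) (hG : G.totalDegree ≤ k₀)
    (hQ : Q.totalDegree ≤ D) : (gr G Q).totalDegree ≤ D * (k₀ + 1) := by
  classical
  have h1 : gr G Q = ∑ α ∈ Q.support, MvPolynomial.C (MvPolynomial.coeff α Q) *
      ∏ o ∈ α.support, (Option.elim o G MvPolynomial.X : MvPolynomial (Fin n) ℝ) ^ α o := by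
    unfold gr MvPolynomial.bind₁
    rw [MvPolynomial.aeval_def, MvPolynomial.eval₂_eq]
    rfl
  rw [h1]
  refine MvPolynomial.totalDegree_finsetSum_le ?_
  intro α hα
  refine (MvPolynomial.totalDegree_mul _ _).trans ?_
  rw [MvPolynomial.totalDegree_C, zero_add]
  refine (MvPolynomial.totalDegree_finsetProd _ _).trans ?_
  have h2 : ∀ o ∈ α.support,
      ((Option.elim o G MvPolynomial.X : MvPolynomial (Fin n) ℝ) ^ α o).totalDegree ≤
        α o * (k₀ + 1) := by
    intro o _
    refine (MvPolynomial.totalDegree_pow _ _).trans ?_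
    refine Nat.mul_le_mul_left _ ?_
    cases o with
    | none => exact hG.trans (Nat.le_succ _)
    | some i =>
      simp only [Option.elim]
      rw [MvPolynomial.totalDegree_X]
      omega
  refine (Finset.sum_le_sum h2).trans ?_
  rw [← Finset.sum_mul]
  exact Nat.mul_le_mul_right _ ((MvPolynomial.le_totalDegree hα).trans hQ)

lemma two_pow_mono {a b : ℕ} (h : a ≤ b) : (2 : ℝ) ^ a ≤ 2 ^ b :=
  pow_le_pow_right₀ (by norm_num) h

/-- A single jet is at most `Psi`. -/
lemma jet_le_Psi {n : ℕ} (Q : MvPolynomial (Option (Fin n)) ℝ) (D : ℕ) (hQ : Q.totalDegree ≤ D)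
    (h : ℝ) (x : Option (Fin n) → ℝ) (α : Option (Fin n) →₀ ℕ)
    (hα : α ∈ expBox (Option (Fin n)) D) :
    |MvPolynomial.eval x (jet Q h α)| ≤ Psi Q h x := by
  rw [Psi_eq_box Q D hQ h x]
  exact Finset.single_le_sum (f := fun β => |MvPolynomial.eval x (jet Q h β)|)
    (fun _ _ => abs_nonneg _) hα

/-- The point of the graph is near. -/
lemma Psi_gpt_le {n : ℕ} (G : MvPolynomial (Fin n) ℝ) (Q : MvPolynomial (Option (Fin n)) ℝ)
    (D : ℕ) (hQ : Q.totalDegree ≤ D) (h : ℝ) (hh : 0 ≤ h) (x : Option (Fin n) → ℝ)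
    (hx : |x none - MvPolynomial.eval (fun i => x (some i)) G| ≤ h) :
    Psi Q h (gpt G (fun i => x (some i))) ≤ 2 ^ D * Psi Q h x ∧
      Psi Q h x ≤ 2 ^ D * Psi Q h (gpt G (fun i => x (some i))) := by
  constructor
  · refine (Psi_le_of_near Q h hh x _ ?_).trans
      (mul_le_mul_of_nonneg_right (two_pow_mono hQ) (Psi_nonneg _ _ _))
    intro o
    cases o with
    | none =>
      simp only [gpt, Option.elim]
      rw [abs_sub_comm]
      exact hx
    | some i =>
      simp only [gpt, Option.elim, sub_self, abs_zero]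
      exact hh
  · refine (Psi_le_of_near Q h hh _ x ?_).trans
      (mul_le_mul_of_nonneg_right (two_pow_mono hQ) (Psi_nonneg _ _ _))
    intro o
    cases o with
    | none =>
      simp only [gpt, Option.elim]
      exact hx
    | some i =>
      simp only [gpt, Option.elim, sub_self, abs_zero]
      exact hh

/-- One jet is large somewhere on the cube. -/
lemma exists_jet {n : ℕ} (G : MvPolynomial (Fin n) ℝ) (Q : MvPolynomial (Option (Fin n)) ℝ)
    (D : ℕ) (hQ : Q.totalDegree ≤ D) (h : ℝ) (hh : 0 ≤ h) (x : Option (Fin n) → ℝ)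
    (hx : |x none - MvPolynomial.eval (fun i => x (some i)) G| ≤ h) (S : ℝ)
    (hS : S ≤ Psi Q h x) :
    ∃ α ∈ expBox (Option (Fin n)) D, S / (2 ^ D * (expBox (Option (Fin n)) D).card) ≤
      |MvPolynomial.eval (fun i => x (some i)) (gr G (jet Q h α))| := by
  have hne : (expBox (Option (Fin n)) D).Nonempty :=
    ⟨0, by rw [mem_expBox]; simp⟩
  have hB : (0 : ℝ) < (expBox (Option (Fin n)) D).card := by exact_mod_cast hne.card_pos
  have h1 := hS.trans (Psi_gpt_le G Q D hQ h hh x hx).2
  rw [Psi_eq_box Q D hQ] at h1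
  by_contra hcon
  push Not at hcon
  have h2 : ∑ α ∈ expBox (Option (Fin n)) D,
      |MvPolynomial.eval (gpt G (fun i => x (some i))) (jet Q h α)| <
      ∑ _α ∈ expBox (Option (Fin n)) D,
        S / (2 ^ D * (expBox (Option (Fin n)) D).card) := by
    refine Finset.sum_lt_sum_of_nonempty hne ?_
    intro α hα
    have := hcon α hα
    rwa [eval_gr] at this
  rw [Finset.sum_const, nsmul_eq_mul] at h2
  have h3 : (2 : ℝ) ^ D * (((expBox (Option (Fin n)) D).card : ℝ) *
      (S / (2 ^ D * (expBox (Option (Fin n)) D).card))) = S := by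
    field_simp
  have h4 := mul_lt_mul_of_pos_left h2 (by positivity : (0 : ℝ) < 2 ^ D)
  rw [h3] at h4
  linarith only [h1, h4]

/-- The values of the rescaled restriction. -/
lemma eval_scaled {n : ℕ} (G : MvPolynomial (Fin n) ℝ) (Q : MvPolynomial (Option (Fin n)) ℝ)
    (K R : ℝ) (a : Fin n → ℝ) (Y : Fin n → ℝ) (y : Fin n → ℝ)
    (hy : ∀ i, y i = a i + Y i / (K * R)) :
    MvPolynomial.eval (fun i => Y i / R) (shf (gr G Q) (1 / K) a) =
      MvPolynomial.eval (gpt G y) Q := by
  rw [eval_shf, ← eval_gr]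
  congr 2
  funext i
  rw [hy i, one_div, div_eq_mul_inv, div_eq_mul_inv, mul_inv]
  ring

end FIL

open FIL in
theorem fil_thm (hRIK : RIKStmt) : FILStmt := by
  classical
  intro n D k₀ C₀ hC₀
  set D' : ℕ := D * (k₀ + 1) with hD'
  obtain ⟨C, hC, hR⟩ := hRIK n D' (2 * D' + 1) (by omega)
  have hne : (expBox (Option (Fin n)) D).Nonempty := ⟨0, by rw [mem_expBox]; simp⟩
  set B : ℕ := (expBox (Option (Fin n)) D).card with hB
  have hB1 : (1 : ℝ) ≤ B := by exact_mod_cast hne.card_pos
  have hlogB : 0 ≤ Real.log B := Real.log_nonneg hB1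
  have hlog2 : 0 ≤ Real.log 2 := Real.log_nonneg (by norm_num)
  refine ⟨2 * D' + 1, C + (2 * D * Real.log 2 + Real.log B), by positivity, ?_⟩
  intro Ω Γ _ p R K c Y z a G P S hp hK hKR hY hP hReg hz hzn hS
  have hp0 := hp.nonneg
  have hK0 : (0 : ℝ) < K := by exact_mod_cast hK
  have hK1 : (1 : ℝ) ≤ K := by exact_mod_cast hK
  have hRn : 0 < R := lt_of_lt_of_le hK hKR
  have hR0 : (0 : ℝ) < R := by exact_mod_cast hRn
  have hR1 : (1 : ℝ) ≤ R := by exact_mod_cast hRn
  have hKR' : (K : ℝ) ≤ R := by exact_mod_cast hKR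
  set h : ℝ := C₀ / (K * R) with hh
  have hh0 : 0 < h := by positivity
  set κ : ℕ := 2 * D' + 1 with hκ
  have hκ1 : (1 : ℝ) ≤ κ := by
    have : 1 ≤ κ := by omega
    exact_mod_cast this
  have hDD : D ≤ D' := by
    rw [hD']
    exact Nat.le_mul_of_pos_right D (Nat.succ_pos _)
  have key : ∀ γ ∈ univ.image c, law p c γ * (Ex (cond p c γ) (fun ω => Real.log (S (c ω))) -
      κ * ((n * Real.log R - H (cond p c γ) Y) + (C + (2 * D * Real.log 2 + Real.log B)))) ≤
      law p c γ * Ex (cond p c γ) (fun ω => Real.log (Psi (P (c ω)) h (z ω))) := by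
    intro γ _
    rcases (law_nonneg hp0 c γ).eq_or_lt with h0 | h0
    · rw [← h0]
      simp
    refine mul_le_mul_of_nonneg_left ?_ h0.le
    obtain ⟨ω₀, hω₀, rfl⟩ : ∃ ω, 0 < p ω ∧ c ω = γ := by
      by_contra hcon
      push Not at hcon
      have : law p c γ = 0 := by
        unfold law
        refine Finset.sum_eq_zero fun ω _ => ?_
        split_ifs with h
        · exact le_antisymm (not_lt.mp fun h' => hcon ω h' h) (hp0 ω)
        · rfl
      rw [this] at h0
      exact lt_irrefl _ h0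
    set q : Ω → ℝ := cond p c (c ω₀) with hq
    have hqlaw : IsLaw q := ⟨fun ω => cond_nonneg hp0 c _ ω, sum_cond p c h0.ne'⟩
    have hqpos : ∀ ω, 0 < q ω → 0 < p ω ∧ c ω = c ω₀ :=
      fun ω hω => (cond_pos_iff hp0 c (c ω₀) ω).mp hω
    obtain ⟨hPne, hPdeg⟩ := hP ω₀ hω₀
    obtain ⟨hS0, z', hz'1, hz'2, hz'3, hz'4⟩ := hS ω₀ hω₀
    have hregc := hReg ω₀ hω₀
    obtain ⟨α, hαbox, hα⟩ := exists_jet (G (c ω₀)) (P (c ω₀)) D hPdeg h hh0.le z' hz'3
      (S (c ω₀)) hz'4
    -- the polynomial on the unit cube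
    set T : MvPolynomial (Fin n) ℝ := shf (gr (G (c ω₀)) (jet (P (c ω₀)) h α)) (1 / K)
      (a (c ω₀)) with hT
    have hTdeg : ∀ i, T.degreeOf i ≤ D' := by
      intro i
      refine (MvPolynomial.degreeOf_le_totalDegree T i).trans ?_
      refine (totalDegree_shf_le _ _ _).trans ?_
      exact totalDegree_gr_le _ _ k₀ D hregc.deg ((totalDegree_jet_le _ _ _).trans hPdeg)
    have hS1 : 0 < S (c ω₀) / (2 ^ D * B) := by positivity
    have hY' : ∀ ω i, (if hi : Y ω i < R then (⟨Y ω i, hi⟩ : Fin R) else ⟨0, hRn⟩).val =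
        if Y ω i < R then Y ω i else 0 := by
      intro ω i
      split_ifs <;> rfl
    set Y' : Ω → Fin n → Fin R := fun ω i =>
      if hi : Y ω i < R then (⟨Y ω i, hi⟩ : Fin R) else ⟨0, hRn⟩ with hY'def
    have hYval : ∀ ω, 0 < q ω → ∀ i, ((Y' ω i : ℕ) : ℝ) = Y ω i := by
      intro ω hω i
      have h1 := hY ω (hqpos ω hω).1 i
      have h2 := hY' ω i
      rw [if_pos h1] at h2
      exact_mod_cast h2
    have hex : ∃ s : Fin n → ℝ, (∀ i, s i ∈ Set.Icc (0 : ℝ) 1) ∧
        S (c ω₀) / (2 ^ D * B) ≤ |MvPolynomial.eval s T| := by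
      refine ⟨fun i => K * (z' (some i) - a (c ω₀) i), ?_, ?_⟩
      · intro i
        obtain ⟨h1, h2⟩ := hz'1 i
        simp only at h1 h2
        refine ⟨mul_nonneg hK0.le (by linarith only [h1]), ?_⟩
        have h3 : z' (some i) - a (c ω₀) i ≤ 1 / K := by linarith only [h2]
        calc (K : ℝ) * (z' (some i) - a (c ω₀) i) ≤ K * (1 / K) :=
              mul_le_mul_of_nonneg_left h3 hK0.le
          _ = 1 := by field_simp
      · refine hα.trans (le_of_eq ?_)
        rw [hT, eval_shf]
        congr 3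
        funext i
        field_simp
        ring
    have h1 := hR Ω q R Y' T (S (c ω₀) / (2 ^ D * B)) hqlaw hTdeg hS1 hex
    have hHY : H q Y' = H q Y := by
      refine H_congr hqlaw.nonneg ?_ ?_
      · intro ω ω' hω hω' he
        funext i
        have e1 := hY ω (hqpos ω hω).1 i
        have e2 := hY ω' (hqpos ω' hω').1 i
        have e3 := congrFun he i
        rw [hY'def]
        simp only
        simp only [e3]
      · intro ω ω' hω hω' he
        funext i
        have e1 := hYval ω hω i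
        have e2 := hYval ω' hω' i
        rw [he, e2] at e1
        exact_mod_cast e1.symm
    rw [hHY] at h1
    have h2 : Ex q (fun ω => Real.log (S (c ω))) = Real.log (S (c ω₀)) := by
      have h3 : Ex q (fun ω => Real.log (S (c ω))) = Ex q (fun _ => Real.log (S (c ω₀))) := by
        unfold Ex
        refine Finset.sum_congr rfl fun ω _ => ?_
        by_cases hω : 0 < q ω
        · simp only [(hqpos ω hω).2]
        · have : q ω = 0 := le_antisymm (not_lt.mp hω) (hqlaw.nonneg ω)
          rw [this]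
          ring
      rw [h3, Ex_const hqlaw.sum_one]
    have h3 : Ex q (fun ω => Real.log (max
        |MvPolynomial.eval (fun i => ((Y' ω i : ℕ) : ℝ) / R) T|
          (S (c ω₀) / (2 ^ D * B) / (R : ℝ) ^ κ))) ≤
        Ex q (fun ω => D * Real.log 2 + Real.log (Psi (P (c ω)) h (z ω))) := by
      refine Ex_mono hqlaw.nonneg fun ω hω => ?_
      obtain ⟨hω1, hω2⟩ := hqpos ω hω
      have hψ : 0 < Psi (P (c ω₀)) h (z ω) := Psi_pos _ hPne h hh0 _
      rw [hω2]
      have h4 : (D : ℝ) * Real.log 2 + Real.log (Psi (P (c ω₀)) h (z ω)) =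
          Real.log (2 ^ D * Psi (P (c ω₀)) h (z ω)) := by
        rw [Real.log_mul (by positivity) hψ.ne', Real.log_pow]
      rw [h4]
      have hzn' := hzn ω hω1
      rw [hω2] at hzn'
      have hzs := hz ω hω1
      rw [hω2] at hzs
      refine Real.log_le_log (lt_of_lt_of_le (div_pos hS1 (pow_pos (lt_of_lt_of_le one_pos hR1) κ))
        (le_max_right _ _)) (max_le ?_ ?_)
      · have h5 : MvPolynomial.eval (fun i => ((Y' ω i : ℕ) : ℝ) / R) T =
            MvPolynomial.eval (gpt (G (c ω₀)) (fun i => z ω (some i)))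
              (jet (P (c ω₀)) h α) := by
          rw [hT]
          refine eval_scaled (G (c ω₀)) (jet (P (c ω₀)) h α) K R (a (c ω₀))
            (fun i => ((Y' ω i : ℕ) : ℝ)) (fun i => z ω (some i)) ?_
          intro i
          rw [hYval ω hω i]
          exact hzs i
        rw [h5]
        exact (jet_le_Psi _ D hPdeg h _ α hαbox).trans
          (Psi_gpt_le (G (c ω₀)) (P (c ω₀)) D hPdeg h hh0.le (z ω) hzn').1
      · obtain ⟨_, z'', hz''1, hz''2, hz''3, hz''4⟩ := hS ω hω1
        rw [hω2] at hz''1 hz''3 hz''4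
        have h6 : Psi (P (c ω₀)) h z'' ≤
            (1 + (K * R : ℝ)) ^ (P (c ω₀)).totalDegree * Psi (P (c ω₀)) h (z ω) := by
          refine Psi_le_of_dist (P (c ω₀)) h (K * R) hh0 (by positivity) (z ω) z'' ?_
          have h7 : (K * R : ℝ) * h = C₀ := by
            rw [hh]
            field_simp
          rw [h7]
          intro o
          cases o with
          | none => exact hz''2
          | some i =>
            obtain ⟨e1, e2⟩ := hz''1 i
            simp only at e1 e2
            have e3 := hzs i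
            have e4 := hY ω hω1 i
            have e5 : (Y ω i : ℝ) / (K * R) ≤ 1 / K := by
              rw [div_le_div_iff₀ (by positivity) hK0]
              have : (Y ω i : ℝ) ≤ R := by exact_mod_cast e4.le
              nlinarith only [this]
            have e6 : 0 ≤ (Y ω i : ℝ) / (K * R) := by positivity
            have e7 : (1 : ℝ) / K ≤ 1 := by
              rw [div_le_one hK0]
              exact hK1
            rw [abs_le]
            constructor <;> linarith
        have h8 : (1 + (K * R : ℝ)) ^ (P (c ω₀)).totalDegree ≤ (2 * (R : ℝ) ^ 2) ^ D := by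
          have e1 : (1 + (K * R : ℝ)) ≤ 2 * (R : ℝ) ^ 2 := by nlinarith only [hR1, hKR']
          have e2 : (1 : ℝ) ≤ 2 * (R : ℝ) ^ 2 := by nlinarith only [e1]
          exact (pow_le_pow_left₀ (by positivity) e1 _).trans (pow_le_pow_right₀ e2 hPdeg)
        have h9 : S (c ω₀) ≤ (2 * (R : ℝ) ^ 2) ^ D * Psi (P (c ω₀)) h (z ω) :=
          hz''4.trans (h6.trans (mul_le_mul_of_nonneg_right h8 hψ.le))
        have h10 : (R : ℝ) ^ (2 * D) ≤ (R : ℝ) ^ κ := pow_le_pow_right₀ hR1 (by omega)
        have h11 : S (c ω₀) / (2 ^ D * B) ≤ S (c ω₀) := by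
          refine div_le_self hS0.le ?_
          have : (1 : ℝ) ≤ 2 ^ D := one_le_pow₀ (by norm_num)
          nlinarith only [hB1, this]
        rw [div_le_iff₀ (by positivity)]
        refine h11.trans (h9.trans ?_)
        rw [mul_pow, ← pow_mul]
        have h12 : 0 ≤ 2 ^ D * Psi (P (c ω₀)) h (z ω) :=
          mul_nonneg (pow_nonneg two_pos.le D) hψ.le
        nlinarith only [h10, h12, mul_le_mul_of_nonneg_left h10 h12]
    have h4 : Ex q (fun ω => D * Real.log 2 + Real.log (Psi (P (c ω)) h (z ω))) =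
        D * Real.log 2 + Ex q (fun ω => Real.log (Psi (P (c ω)) h (z ω))) := by
      rw [Ex_add, Ex_const hqlaw.sum_one]
    rw [h2]
    have h5 : Real.log (S (c ω₀) / (2 ^ D * B)) =
        Real.log (S (c ω₀)) - (D * Real.log 2 + Real.log B) := by
      rw [Real.log_div hS0.ne' (by positivity), Real.log_mul (by positivity) (by positivity),
        Real.log_pow]
    rw [h5] at h1
    have h6 : (2 * D * Real.log 2 + Real.log B) ≤ κ * (2 * D * Real.log 2 + Real.log B) := by
      have : 0 ≤ 2 * D * Real.log 2 + Real.log B := by positivity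
      nlinarith only [hκ1, this]
    rw [h4] at h3
    nlinarith only [h1, h3, h6, h1, h3, h6]
  have hsum := Finset.sum_le_sum key
  rw [← rix_ex p hp0 c (fun ω => Real.log (Psi (P (c ω)) h (z ω)))] at hsum
  have e1 : ∀ γ ∈ univ.image c, law p c γ *
      (Ex (cond p c γ) (fun ω => Real.log (S (c ω))) - κ * ((n * Real.log R -
        H (cond p c γ) Y) + (C + (2 * D * Real.log 2 + Real.log B)))) =
      law p c γ * Ex (cond p c γ) (fun ω => Real.log (S (c ω))) -
        κ * ((n * Real.log R + (C + (2 * D * Real.log 2 + Real.log B))) * law p c γ -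
          law p c γ * H (cond p c γ) Y) := by
    intro γ _
    ring
  rw [Finset.sum_congr rfl e1, Finset.sum_sub_distrib, ← Finset.mul_sum, Finset.sum_sub_distrib,
    ← Finset.mul_sum, sum_law, hp.sum_one, ← CH_eq_sum hp0, ← rix_ex p hp0 c] at hsum
  linarith only [hsum]

end Pool.KS3
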